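import Mathlib
import Pool.Agent.Y820.MG.Gap

/-!
# Margulis' injectivity radius conjecture and small elements of the dual of the trace ring

`Pool.Agent.H225R3.MargDefs` contains the definitions: `Realization ρ Γ k n S` (a homomorphism `r`
from `Γ` to the `n` by `n` matrices over the ring of integers of the number field `k`, bounded under
all embeddings outside `S`, such that for `σ` in `S` the eigenvalues of `σ (r γ)` are eigenvalues of
`ρ γ`, and such that only `1` is mapped to a unipotent matrix) and `UniformlyDiscrete` (there is an
identity neighbourhood `U` such that `g U g⁻¹` meets every group of the family in the identity only).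

The traces of the matrices `r γ` generate an order of (a subfield of) `k`.  The theorem is about
number fields `k`, of any degree, in which the dual of this order with respect to the trace form
`Tr (x y)`, for example the inverse different of `k`, contains an element `a` whose conjugates have
absolute values with bounded sum.  If `S` has only one element (`G` simple, `k` totally real) the
only other condition is that `a` is not zero.  In general the conjugates `σ a`, `σ ∈ S`, have to lie
in an open half plane with boundary through zero; for a totally real field it is enough that `a` is
totally positive, and then the condition is that the trace of `a`, an integer if `a` is in the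
inverse different, is bounded.

Method.  The function `∑ σ a · tr (z - σ (r γ))⁻¹` is the quotient of an integral polynomial and of
the product `P` of the characteristic polynomials of the conjugates of `r γ`.  The sum of its
residues is bounded, so it is small in the sense of the integral of `log (1 + |·|)` over the unit
circle; for coprime pairs of integral polynomials of bounded height Lehmer's inequality is known, and
the residues at the poles outside the unit circle do not vanish.
-/

set_option autoImplicit false

namespace Pool.Agent.Results.MP_162bbe_gt.DualTraces

open NumberField Pool.Agent.H225R3.Marg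

noncomputable section

/-- The element `a` of `k` is in the dual of the additive group generated by the traces of `r γ`,
that is, all the traces `Tr (a tr (r γ))` are integers; the sum of the absolute values of the
conjugates of `a` is at most `L`, and the conjugates under the embeddings in `S` are in an open half
plane with boundary through zero. -/
def SmallDual (L : ℝ) {G : Type*} [Group G] {M : ℕ} {ρ : G →* Matrix (Fin M) (Fin M) ℂ}
    {Γ : Subgroup G} {k : Type} [Field k] [NumberField k] {n : ℕ} {S : Finset (k →+* ℂ)}
    (R : Realization ρ Γ k n S) (a : k) : Prop :=
  (∀ γ : Γ, ∃ m : ℤ, Algebra.trace ℚ k (a * ((R.r γ).trace : 𝓞 k)) = m) ∧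
    (∃ u : ℂ, ∀ σ ∈ S, 0 < (u * σ a).re) ∧ ∑ σ : k →+* ℂ, ‖σ a‖ ≤ L

/-- The torsion-free subgroups `Γ` of `G` which have a realization by matrices of size `n`, with at
most `s` noncompact embeddings, over a number field `k` having an element `a` with `SmallDual`. -/
def Family (L : ℝ) (s n : ℕ) {G : Type*} [Group G] {M : ℕ}
    (ρ : G →* Matrix (Fin M) (Fin M) ℂ) : Set (Subgroup G) :=
  {Γ | (∀ γ ∈ Γ, ∀ N : ℕ, 0 < N → γ ^ N = 1 → γ = 1) ∧
    ∃ (k : Type) (_ : Field k) (_ : NumberField k) (S : Finset (k →+* ℂ))
      (R : Realization ρ Γ k n S) (a : k), S.card ≤ s ∧ SmallDual L R a}

/-- Let `G` be a topological group and `ρ` a continuous finite dimensional complex representation of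
`G` (for instance the complexified adjoint representation of a semisimple Lie group). For all `L`,
`s` and `n` the family of all torsion-free subgroups of `G` that are realized by integral matrices of
size `n`, with at most `s` noncompact embeddings, over a number field with a small dual element is
uniformly discrete. -/
theorem result {G : Type*} [Group G] [TopologicalSpace G] {M : ℕ}
    (ρ : G →* Matrix (Fin M) (Fin M) ℂ) (hρ : Continuous ρ) (L : ℝ) (s n : ℕ) :
    UniformlyDiscrete (Family L s n ρ) := by
  obtain ⟨ε, hε, h⟩ := Pool.Agent.Y820.MG.small_gap L s n
  refine ⟨_, nhd ρ hρ ε hε, ?_⟩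
  rintro Γ ⟨htf, k, _, _, S, R, a, hSs, ha1, ha2, ha3⟩ g u hu hΓ
  refine final_step' R htf ε hε g u hu hΓ fun hnil => ?_
  have hunit : IsUnit (R.r ⟨g * u * g⁻¹, hΓ⟩) :=
    (Group.isUnit (⟨g * u * g⁻¹, hΓ⟩ : Γ)).map R.r
  refine h k S _ a ⟨ha2, ha3⟩ (fun m => ?_) hSs hunit
    (fun σ hσ l hl => R.comp' _ σ hσ l hl) hnil
  rw [← map_pow]
  exact ha1 _

end

end Pool.Agent.Results.MP_162bbe_gt.DualTraces
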