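import Pool.Agent.Y453.MG.Sub

/-!
# Margulis' injectivity radius conjecture over fields with few conjugates of Frobenius powers

All torsion-free arithmetic groups whose field of definition `L` is abelian over a fixed number
field `K`, or Galois over `K` with a Galois group `H` such that all `m`-th powers of elements of `H`
have at most `B` conjugates (for instance `H` virtually abelian with bounded index, or `H` modulo its
centre of bounded exponent), form a uniformly discrete family. The same holds for subfields of such
Galois extensions, under a condition on the ramification above one prime ideal `P` of `K`, and for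
fields in which a single automorphism is a power of Frobenius at a positive proportion of the prime
ideals above `P`.

`Pool.Agent.H225R3.MargDefs` contains the definitions `Realization ρ Γ k n S` (a homomorphism `r`
from `Γ` to the `n` by `n` matrices over the ring of integers of `k`, bounded under all embeddings
outside `S`, such that for `σ` in `S` the eigenvalues of `σ (r γ)` are eigenvalues of `ρ γ`, and such
that only `1` is mapped to a unipotent matrix) and `UniformlyDiscrete` (there is an identity
neighbourhood `U` such that `g U g⁻¹` meets every group of the family in the identity only).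
`Pool.Agent.Y453.MG.Sub` contains `FrobeniusFamily` and `GaloisFamily`.
-/

set_option autoImplicit false

open NumberField Module Pool.Agent.H225R3.Marg Pool.Agent.Y453.MG

namespace Pool.Agent.Results.MP_162bbe_gt.GaloisTraceFields

/-- The torsion-free subgroups `Γ` of `G` that have a realization by matrices of size `n`, with at
most `s` noncompact embeddings, over a subfield `L` of a finite Galois extension `M` of `K` whose
Galois group has an abelian subgroup of index at most `t`, where `[M : L] ≤ e` or the ramification
indices over `K` of the prime ideals of `M` above `P` are at most `e`. -/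
def VirtuallyAbelianFamily (K : Type) [Field K] [NumberField K] (P : Ideal (𝓞 K)) (t e s n : ℕ)
    {G : Type*} [Group G] {M₀ : ℕ} (ρ : G →* Matrix (Fin M₀) (Fin M₀) ℂ) : Set (Subgroup G) :=
  {Γ | (∀ γ ∈ Γ, ∀ N : ℕ, 0 < N → γ ^ N = 1 → γ = 1) ∧
    ∃ (L : Type) (_ : Field L) (_ : NumberField L) (S : Finset (L →+* ℂ))
      (_ : Realization ρ Γ L n S), S.card ≤ s ∧
    ∃ (M : Type) (_ : Field M) (_ : NumberField M) (_ : Algebra K M) (_ : Algebra L M)
      (_ : IsGalois K M),
      (∃ H : Subgroup Gal(M/K), (∀ x ∈ H, ∀ y ∈ H, x * y = y * x) ∧ H.index ≤ t) ∧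
      (finrank L M ≤ e ∨ ∀ 𝔓 : Ideal (𝓞 M), 𝔓.IsPrime → 𝔓.under (𝓞 K) = P →
        𝔓.ramificationIdx (𝓞 K) ≤ e)}

/-- The torsion-free subgroups `Γ` of `G` that have a realization by matrices of size `n`, with at
most `s` noncompact embeddings, over a finite Galois extension `L` of `K` such that the `m`-th
power of every element of the Galois group is central. -/
def CentralFamily (K : Type) [Field K] [NumberField K] (m s n : ℕ)
    {G : Type*} [Group G] {M₀ : ℕ} (ρ : G →* Matrix (Fin M₀) (Fin M₀) ℂ) : Set (Subgroup G) :=
  {Γ | (∀ γ ∈ Γ, ∀ N : ℕ, 0 < N → γ ^ N = 1 → γ = 1) ∧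
    ∃ (L : Type) (_ : Field L) (_ : NumberField L) (_ : Algebra K L) (_ : IsGalois K L)
      (S : Finset (L →+* ℂ)) (_ : Realization ρ Γ L n S), S.card ≤ s ∧
      ∀ σ τ : Gal(L/K), τ * σ ^ m = σ ^ m * τ}

/-- The torsion-free subgroups `Γ` of `G` that have a realization by matrices of size `n`, with at
most `s` noncompact embeddings, over a finite abelian extension `L` of `K`. -/
def AbelianFamily (K : Type) [Field K] [NumberField K] (s n : ℕ)
    {G : Type*} [Group G] {M₀ : ℕ} (ρ : G →* Matrix (Fin M₀) (Fin M₀) ℂ) : Set (Subgroup G) :=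
  {Γ | (∀ γ ∈ Γ, ∀ N : ℕ, 0 < N → γ ^ N = 1 → γ = 1) ∧
    ∃ (L : Type) (_ : Field L) (_ : NumberField L) (_ : Algebra K L) (_ : IsGalois K L)
      (S : Finset (L →+* ℂ)) (_ : Realization ρ Γ L n S), S.card ≤ s ∧
      ∀ σ τ : Gal(L/K), τ * σ = σ * τ}

/-- Let `G` be a topological group, `ρ` a continuous finite dimensional complex representation of
`G` (for instance the complexified adjoint representation of a semisimple Lie group), `K` a number
field and `P` a prime ideal of its ring of integers that contains the prime number `p`. The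
following families of subgroups of `G` are uniformly discrete, for all `s`, `n`, `e`, `m ≥ 1`, `B`
and `t`.

1. `FrobeniusFamily`: torsion-free groups realized by integral matrices of size `n`, with at most
   `s` noncompact embeddings, over a subfield `L` of a number field `M` containing `K`, with an
   automorphism of `M` over `K` that is the `m`-th power of Frobenius at the prime ideals of a set
   `T` above `P` which accounts for at least the proportion `1 / B` of the degree `[M : K]`, and
   `[M : L] ≤ e` or all ramification indices at `T` are at most `e`.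
2. `GaloisFamily`: the same with `M / K` Galois such that for all `σ` in the Galois group `σ ^ m` has
   at most `B` conjugates, and `[M : L] ≤ e` or all ramification indices above `P` are at most `e`.
3. `VirtuallyAbelianFamily`: the same where the Galois group has an abelian subgroup of index at
   most `t`.
4. `CentralFamily`: `L / K` Galois and the `m`-th powers of the elements of the Galois group are
   central.
5. `AbelianFamily`: `L / K` abelian. -/
theorem result {G : Type*} [Group G] [TopologicalSpace G] {M₀ : ℕ}
    (ρ : G →* Matrix (Fin M₀) (Fin M₀) ℂ) (hρ : Continuous ρ)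
    (K : Type) [Field K] [NumberField K] (p : ℕ) (hp : p.Prime) (P : Ideal (𝓞 K))
    (hP : P.IsPrime) (hpP : (p : 𝓞 K) ∈ P) (e s n : ℕ) :
    (∀ m B : ℕ, 1 ≤ m → UniformlyDiscrete (FrobeniusFamily K P m B e s n ρ)) ∧
    (∀ m B : ℕ, 1 ≤ m → UniformlyDiscrete (GaloisFamily K P m B e s n ρ)) ∧
    (∀ t : ℕ, UniformlyDiscrete (VirtuallyAbelianFamily K P t e s n ρ)) ∧
    (∀ m : ℕ, 1 ≤ m → UniformlyDiscrete (CentralFamily K m s n ρ)) ∧
    UniformlyDiscrete (AbelianFamily K s n ρ) := by
  have hcen : ∀ m : ℕ, 1 ≤ m → UniformlyDiscrete (CentralFamily K m s n ρ) := by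
    intro m hm
    obtain ⟨U, hU, h⟩ := uniform_galois_sub K p hp P hP hpP m 1 1 s n hm ρ hρ
    refine ⟨U, hU, ?_⟩
    rintro Γ ⟨htf, L, i1, i2, i3, i4, S, R, hS, hc⟩
    refine h Γ ⟨htf, L, i1, i2, S, R, hS, L, i1, i2, i3, Algebra.id L, i4, ?_, ?_⟩
    · intro σ
      have h1 : (Set.range fun g : Gal(L/K) => g * σ ^ m * g⁻¹) ⊆ {σ ^ m} := by
        rintro _ ⟨g, rfl⟩
        change g * σ ^ m * g⁻¹ = σ ^ m
        rw [hc, mul_inv_cancel_right]
      exact (Set.ncard_le_ncard h1 (Set.finite_singleton _)).trans (Set.ncard_singleton _).le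
    · exact Or.inl (finrank_self L).le
  refine ⟨fun m B hm => uniform_sub K p hp P hP hpP m B e s n hm ρ hρ,
    fun m B hm => uniform_galois_sub K p hp P hP hpP m B e s n hm ρ hρ, ?_, hcen, ?_⟩
  · intro t
    obtain ⟨U, hU, h⟩ := uniform_galois_sub K p hp P hP hpP t.factorial t e s n
      (Nat.factorial_pos t) ρ hρ
    refine ⟨U, hU, ?_⟩
    rintro Γ ⟨htf, L, i1, i2, S, R, hS, M, i3, i4, i5, i6, i7, ⟨H, hab, hH⟩, he⟩
    refine h Γ ⟨htf, L, i1, i2, S, R, hS, M, i3, i4, i5, i6, i7, ?_, he⟩
    intro σ
    exact Pool.Agent.TH285.MG.conj_of_virt H hab t hH σ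
  · obtain ⟨U, hU, h⟩ := hcen 1 le_rfl
    refine ⟨U, hU, ?_⟩
    rintro Γ ⟨htf, L, i1, i2, i3, i4, S, R, hS, hc⟩
    refine h Γ ⟨htf, L, i1, i2, i3, i4, S, R, hS, fun σ τ => ?_⟩
    rw [pow_one]
    exact hc σ τ

end Pool.Agent.Results.MP_162bbe_gt.GaloisTraceFields
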