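import Mathlib
import Pool.Agent.Y399.MG.D

/-!
# Margulis' injectivity radius conjecture over number fields with a large discriminant

Number fields `k` of degree `m` with `|disc k| ≥ (δ m) ^ m` are considered, for any fixed `δ > 0`;
there is no bound for the degree, and in each degree only finitely many number fields are excluded.
All torsion-free arithmetic groups over these fields with one noncompact embedding (lattices in
absolutely simple groups), realized by integral matrices of a fixed size, form a uniformly discrete
family.  The same is true for `s` noncompact embeddings if any two different ones have images in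
`ℂ` which generate a field of degree more than `s n ^ 2 m`; for instance, if `m > s n ^ 2 + 1` and
the Galois group of the Galois closure of `k` is the symmetric group.  It is also true if `k` has a
subfield `F` of index at most `e` such that these conditions hold for `F` and the restrictions of
the noncompact embeddings to `F` (with `n e` in place of `n`); for instance, if all noncompact
embeddings of `k` agree on `F` and `F` has a large discriminant (lattices in complex groups, in
products of groups).

More precisely, let `T` be any positive number with `(m / T) ^ m ≤ |disc F|`, `m = [F : ℚ]`.  Then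
each element `γ ≠ 1` of such a group has an eigenvalue of absolute value at least

  `exp (c / (s n e) (log log (16 + n e T) / log (16 + n e T)) ^ 3)`

with an absolute constant `c > 0` under one of the noncompact embeddings.  (`T = m` is always
allowed.)

Method.  Let `x` be an eigenvalue of `r γ` which is not a root of unity.  The expanding conjugates
of `x ^ j` lie above the noncompact embeddings of `k`, and this implies that `F` is contained in the
field `ℚ(x ^ j)` for all `j ≥ 1`.  Let `M` be the smallest one of these fields.  Its root
discriminant is at least that of `F`, and the norm `β` of `x` to `M` satisfies `M = ℚ(β ^ i)` for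
all `i ≥ 1`; so the lower bound of `MP_7ab245_nt/LargeDiscriminant` (Dobrowolski's theorem with the
degree replaced by `T`) can be applied to `β`.

`Pool.Agent.H225R3.MargDefs` contains the definitions: `Realization ρ Γ k n S` (a homomorphism `r`
from `Γ` to the `n` by `n` matrices over the ring of integers of the number field `k`, bounded under
all embeddings outside `S`, such that for `σ` in `S` the eigenvalues of `σ (r γ)` are eigenvalues of
`ρ γ`, and such that only `1` is mapped to a unipotent matrix) and `UniformlyDiscrete` (there is an
identity neighbourhood `U` such that `g U g⁻¹` meets every group of the family in the identity only).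
-/

set_option autoImplicit false

namespace Pool.Agent.Results.MP_162bbe_gt.LargeDiscriminants

open NumberField Module Pool.Agent.H225R3.Marg

universe u

/-- `F` is a subfield of `k`. Any two embeddings of `k` in `S` agree on `F`, or their images of `F`
generate a field of degree more than `C [F : ℚ]`. There is no condition if `S` has only one
element. -/
def Independent {F k : Type} [Field F] [NumberField F] [Field k] [NumberField k] [Algebra F k]
    (C : ℕ) (S : Finset (k →+* ℂ)) : Prop :=
  ∀ σ ∈ S, ∀ σ' ∈ S, σ.comp (algebraMap F k) = σ'.comp (algebraMap F k) ∨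
    C * finrank ℚ F < finrank ℚ (IntermediateField.adjoin ℚ
      (Set.range (σ.comp (algebraMap F k)) ∪ Set.range (σ'.comp (algebraMap F k))))

/-- The torsion-free subgroups `Γ` of `G` that have a realization by matrices of size `n`, with at
most `s` noncompact embeddings, over a number field `k` with a subfield `F`, `[k : F] ≤ e`, such
that `|disc F| ≥ (δ [F : ℚ]) ^ [F : ℚ]`, and any two different restrictions to `F` of noncompact
embeddings of `k` have images which generate a field of degree more than `s (n e) ^ 2 [F : ℚ]`. -/
def Family (δ : ℝ) (s n e : ℕ) {G : Type*} [Group G] {M : ℕ}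
    (ρ : G →* Matrix (Fin M) (Fin M) ℂ) : Set (Subgroup G) :=
  {Γ | (∀ γ ∈ Γ, ∀ N : ℕ, 0 < N → γ ^ N = 1 → γ = 1) ∧
    ∃ (F k : Type) (_ : Field F) (_ : NumberField F) (_ : Field k) (_ : NumberField k)
      (_ : Algebra F k) (S : Finset (k →+* ℂ)) (_ : Realization ρ Γ k n S),
      finrank F k ≤ e ∧ S.card ≤ s ∧ Independent (F := F) (s * (n * e) ^ 2) S ∧
      (δ * finrank ℚ F) ^ finrank ℚ F ≤ |(discr F : ℝ)|}

/-- **Margulis' conjecture over number fields with a large discriminant.**

1. There is an absolute constant `c > 0` such that the following holds. Let `Γ` be a torsion-free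
   group with a realization of size `n` over a number field `k`, with at most `s` noncompact
   embeddings; let `F` be a subfield of `k` of degree `m` over `ℚ`, for instance `F = k`, with
   `[k : F] ≤ e`, such that any two different restrictions to `F` of noncompact embeddings have
   images generating a field of degree more than `s (n e) ^ 2 m` (no condition if there is only one
   noncompact embedding), and let `T > 0` with `(m / T) ^ m ≤ |disc F|`. Then every `γ ≠ 1` in `Γ`
   has an eigenvalue `l` under one of the noncompact embeddings, which is also an eigenvalue of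
   `ρ γ`, with `|l| ≥ exp (c / (s n e) (log log (16 + n e T) / log (16 + n e T)) ^ 3)`.
2. For all `δ > 0`, `s`, `n` and `e` and every continuous finite dimensional complex representation
   `ρ` of a topological group `G`, the family `Family δ s n e ρ` is uniformly discrete.
3. For every `δ` and every degree `m` there are only finitely many number fields in `ℂ` of degree
   `m` which do not satisfy the condition `|disc k| ≥ (δ m) ^ m`. -/
theorem result :
    (∃ c : ℝ, 0 < c ∧ ∀ (G : Type u) [Group G] (M : ℕ) (ρ : G →* Matrix (Fin M) (Fin M) ℂ)
      (Γ : Subgroup G) (F k : Type) [Field F] [NumberField F] [Field k] [NumberField k] [Algebra F k]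
      (n s e : ℕ) (S : Finset (k →+* ℂ)) (R : Realization ρ Γ k n S) (T : ℝ),
      (∀ γ ∈ Γ, ∀ N : ℕ, 0 < N → γ ^ N = 1 → γ = 1) → finrank F k ≤ e → S.card ≤ s →
      Independent (F := F) (s * (n * e) ^ 2) S →
      0 < T → (finrank ℚ F / T) ^ finrank ℚ F ≤ |(discr F : ℝ)| →
      ∀ γ : Γ, γ ≠ 1 → ∃ σ ∈ S, ∃ l : ℂ, IsEig (conjMat σ (R.r γ)) l ∧ IsEig (ρ γ) l ∧
        Real.exp (c / (s * n * e) *
          (Real.log (Real.log (16 + n * e * T)) / Real.log (16 + n * e * T)) ^ 3) ≤ ‖l‖) ∧
    (∀ (G : Type u) [Group G] [TopologicalSpace G] (M : ℕ) (ρ : G →* Matrix (Fin M) (Fin M) ℂ),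
      Continuous ρ → ∀ (δ : ℝ), 0 < δ → ∀ s n e : ℕ, UniformlyDiscrete (Family δ s n e ρ)) ∧
    (∀ (δ : ℝ) (m : ℕ), {k : {F : IntermediateField ℚ ℂ // FiniteDimensional ℚ F} |
      haveI : NumberField k.1 := @NumberField.mk _ _ inferInstance k.2
      finrank ℚ k.1 = m ∧ |(discr k.1 : ℝ)| < (δ * m) ^ m}.Finite) := by
  refine ⟨?_, ?_, ?_⟩
  · obtain ⟨c, hc, h⟩ := Pool.Agent.Y399.MG.gap1
    refine ⟨c, hc, ?_⟩
    intro G _ M ρ Γ F k _ _ _ _ _ n s e S R T htf he hs hS hT hdisc γ hγ
    have hnil : ∀ N : ℕ, 0 < N → ¬ IsNilpotent (R.r γ ^ N - 1) := by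
      intro N hN h0
      rw [← map_pow] at h0
      have h1 := R.unipotent _ h0
      have h2 : (γ : G) ^ N = 1 := congrArg Subtype.val h1
      exact hγ (Subtype.ext (htf _ γ.2 N hN h2))
    have hunit : IsUnit (R.r γ) := (Group.isUnit γ).map R.r
    obtain ⟨σ, hσ, l, hl, hl1, hlow⟩ := h F k n S (R.r γ) s e T hs he
      (fun σ hσ σ' hσ' hne => (hS σ hσ σ' hσ').resolve_left hne) hT hdisc hunit
      (fun σ hσ l hl => R.comp' _ σ hσ l hl) hnil
    have hl' : IsEig (conjMat σ (R.r γ)) l := hl
    refine ⟨σ, hσ, l, hl', R.eig σ hσ γ l hl', ?_⟩
    have hn : 0 < n := by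
      rcases Nat.eq_zero_or_pos n with h0 | h0
      · exfalso
        subst h0
        have h1 : ((emb σ).mapMatrix (R.r γ)).charpoly = 1 := by
          rw [Matrix.charpoly, Matrix.det_isEmpty]
        rw [h1] at hl
        simp at hl
      · exact h0
    have hs0 : 0 < s := (Finset.card_pos.mpr ⟨σ, hσ⟩).trans_le hs
    have he0 : 0 < e := by
      haveI : Module.Finite F k := Module.Finite.of_restrictScalars_finite ℚ F k
      exact (finrank_pos : 0 < finrank F k).trans_le he
    have hsn : (0 : ℝ) < s * n * e := by positivity
    rw [← Real.le_log_iff_exp_le (by linarith), div_mul_eq_mul_div, div_le_iff₀ hsn]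
    push_cast at hlow
    refine hlow.trans (le_of_eq ?_)
    ring
  · intro G _ _ M ρ hρ δ hδ s n e
    obtain ⟨ε, hε, h⟩ := Pool.Agent.Y399.MG.gap2 δ hδ s n e
    refine ⟨_, nhd ρ hρ ε hε, ?_⟩
    rintro Γ ⟨htf, F, k, _, _, _, _, _, S, R, he, hs, hS, hdisc⟩ g v hv hΓ
    refine final_step' R htf ε hε g v hv hΓ fun hnil => ?_
    have hunit : IsUnit (R.r ⟨g * v * g⁻¹, hΓ⟩) :=
      (Group.isUnit (⟨g * v * g⁻¹, hΓ⟩ : Γ)).map R.r
    exact h F k S _ hs he (fun σ hσ σ' hσ' hne => (hS σ hσ σ' hσ').resolve_left hne) hdisc hunit
      (fun σ hσ l hl => R.comp' _ σ hσ l hl) hnil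
  · intro δ m
    refine (NumberField.finite_of_discr_bdd ℂ ⌈(δ * m) ^ m⌉₊).subset ?_
    intro k hk
    haveI : NumberField k.1 := @NumberField.mk _ _ inferInstance k.2
    obtain ⟨-, hk2⟩ := hk
    have h1 : |(discr k.1 : ℝ)| ≤ (⌈(δ * m) ^ m⌉₊ : ℝ) := hk2.le.trans (Nat.le_ceil _)
    exact_mod_cast h1

end Pool.Agent.Results.MP_162bbe_gt.LargeDiscriminants
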