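import Mathlib
import Pool.Agent.Y399.MG.H

/-!
# Margulis' injectivity radius conjecture over highly ramified number fields

Fix a prime number `p` and a real number `c`. Number fields `k`, of any degree `m`, are considered
in which the sum of the residue degrees of the primes above `p` is at most `c m / log (2 m)`; for
instance this holds if all ramification indices above `p` are at least `log (2 m) / c`. All
torsion-free arithmetic groups over these fields, realized by integral matrices of a fixed size `n`,
with at most `s` noncompact embeddings, form a uniformly discrete family. The residue degrees are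
arbitrary, and nothing is assumed on the noncompact embeddings.

This is an application of a transfer principle. Let `Γ` be a torsion-free group with a realization
of size `n` over `k` with at most `s` noncompact embeddings. If `M(β) ≥ μ` for all algebraic
integers `β`, not `0` or a root of unity, which generate, together with all their powers, a subfield
`M` with `[L : M] ≤ s n` of an extension `L` of `k` with `[L : k] ≤ n`, then each element `γ ≠ 1` of
`Γ` has an eigenvalue of absolute value at least `μ ^ (1 / (s n))` under one of the noncompact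
embeddings. So any lower bound for Mahler measures which depends only on properties of fields that
are, up to bounded factors, the same for all the fields `M` gives uniform discreteness. The sum of
the residue degrees above `p` is such a property, and the lower bound is the one of
`MP_7ab245_nt/HighRamification`.

Method of the transfer principle. Let `x` be an eigenvalue of `r γ` which is not a root of unity,
`L = k (x)`, and let `M = ℚ (x ^ j)` be of the smallest possible degree. An embedding of `M` which
expands `x ^ j` has `[L : M]` extensions to `L`, all lying above the noncompact embeddings of `k`;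
so `[L : M] ≤ s n`. The norm `β` of `x` to `M` generates `M`, together with all its powers, and
`M(β)` is at most the `s n`-th power of the largest conjugate of `x`.

`Pool.Agent.H225R3.MargDefs` contains the definitions: `Realization ρ Γ k n S` (a homomorphism `r`
from `Γ` to the `n` by `n` matrices over the ring of integers of the number field `k`, bounded under
all embeddings outside `S`, such that for `σ` in `S` the eigenvalues of `σ (r γ)` are eigenvalues of
`ρ γ`, and such that only `1` is mapped to a unipotent matrix) and `UniformlyDiscrete` (there is an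
identity neighbourhood `U` such that `g U g⁻¹` meets every group of the family in the identity only).
-/

set_option autoImplicit false

namespace Pool.Agent.Results.MP_162bbe_gt.RamifiedFields

open NumberField Module Pool.Agent.H225R3.Marg

universe u

/-- The sum of the residue degrees of the prime ideals of the ring of integers of `k` above `p` is
at most `c m / log (2 m)`, where `m` is the degree of `k`. (The sum of the products of residue
degree and ramification index is `m`.) -/
def HighlyRamified (p : ℕ) (c : ℝ) (k : Type) [Field k] [NumberField k] : Prop :=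
  ((∑ P ∈ IsDedekindDomain.primesOverFinset (Ideal.span {(p : ℤ)}) (𝓞 k), P.inertiaDeg ℤ : ℕ) : ℝ)
    * Real.log (2 * finrank ℚ k) ≤ c * finrank ℚ k

/-- There is no element of finite order other than the identity. -/
def TorsionFree {G : Type*} [Group G] (Γ : Subgroup G) : Prop :=
  ∀ γ ∈ Γ, ∀ N : ℕ, 0 < N → γ ^ N = 1 → γ = 1

/-- The torsion-free subgroups `Γ` of `G` that have a realization by matrices of size `n`, with at
most `s` noncompact embeddings, over a number field `k` with `HighlyRamified p c k`. -/
def Family (p : ℕ) (c : ℝ) (s n : ℕ) {G : Type*} [Group G] {M : ℕ}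
    (ρ : G →* Matrix (Fin M) (Fin M) ℂ) : Set (Subgroup G) :=
  {Γ | TorsionFree Γ ∧
    ∃ (k : Type) (_ : Field k) (_ : NumberField k) (S : Finset (k →+* ℂ))
      (_ : Realization ρ Γ k n S), S.card ≤ s ∧ HighlyRamified p c k}

/-- `μ` is a lower bound for the Mahler measures of all algebraic integers `β`, not `0` or a root of
unity, such that each power `β ^ i`, `i ≥ 1`, generates the same field `M`, and `M` is a subfield,
of index at most `s n`, of an extension `L` of `k` of degree at most `n`. -/
def LehmerAround (k : Type) [Field k] [NumberField k] (s n : ℕ) (μ : ℝ) : Prop :=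
  ∀ (L M : Type) [Field L] [NumberField L] [Algebra k L] [Field M] [NumberField M] [Algebra M L]
    (β : M), finrank k L ≤ n → finrank M L ≤ s * n → IsIntegral ℤ β → β ≠ 0 →
    (∀ m : ℕ, 0 < m → β ^ m ≠ 1) → (∀ i : ℕ, 0 < i → IntermediateField.adjoin ℚ {β ^ i} = ⊤) →
    μ ≤ ((minpoly ℤ β).map (Int.castRingHom ℂ)).mahlerMeasure

/-- Every `γ ≠ 1` in `Γ` has an eigenvalue `l` under one of the noncompact embeddings, which is also
an eigenvalue of `ρ γ`, with `|l| > 1` and `|l| ^ N ≥ μ`. -/
def EigenvalueBound {G : Type*} [Group G] {M : ℕ} {ρ : G →* Matrix (Fin M) (Fin M) ℂ}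
    {Γ : Subgroup G} {k : Type} [Field k] [NumberField k] {n : ℕ} {S : Finset (k →+* ℂ)}
    (R : Realization ρ Γ k n S) (N : ℕ) (μ : ℝ) : Prop :=
  ∀ γ : Γ, γ ≠ 1 → ∃ σ ∈ S, ∃ l : ℂ, IsEig (conjMat σ (R.r γ)) l ∧ IsEig (ρ γ) l ∧
    1 < ‖l‖ ∧ μ ≤ ‖l‖ ^ N

/-- **Margulis' conjecture over highly ramified number fields.**

Let `Γ` be a torsion-free group with a realization `R` of size `n` over a number field `k` of degree
`m`, with at most `s` noncompact embeddings.

1. (Transfer principle.) If `LehmerAround k s n μ` and `μ > 1`, then every `γ ≠ 1` in `Γ` has an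
   eigenvalue `l` under one of the noncompact embeddings, which is also an eigenvalue of `ρ γ`, with
   `|l| ^ (s n) ≥ μ`.
2. If `HighlyRamified p c k`, then the same is true with
   `μ = exp (1 / (4 p ^ ⌈40 + 20 c s n log (2 n) / log 2⌉))`.
3. For every prime number `p`, all `c`, `s` and `n`, and every continuous finite dimensional complex
   representation `ρ` of a topological group `G`, the family `Family p c s n ρ` is uniformly
   discrete.
4. `HighlyRamified p c k` holds if all the ramification indices of the primes of `k` above `p` are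
   at least `log (2 m) / c`. -/
theorem result :
    (∀ (G : Type u) [Group G] (M : ℕ) (ρ : G →* Matrix (Fin M) (Fin M) ℂ)
      (Γ : Subgroup G) (k : Type) [Field k] [NumberField k]
      (n s : ℕ) (S : Finset (k →+* ℂ)) (R : Realization ρ Γ k n S), TorsionFree Γ → S.card ≤ s →
      (∀ μ : ℝ, 1 < μ → LehmerAround k s n μ → EigenvalueBound R (s * n) μ) ∧
      (∀ (p : ℕ) (c : ℝ), p.Prime → HighlyRamified p c k → EigenvalueBound R (s * n)
        (Real.exp (1 / (4 * p ^
          ⌈40 + 20 * (c * s * n * (Real.log (2 * n) / Real.log 2))⌉₊))))) ∧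
    (∀ (G : Type u) [Group G] [TopologicalSpace G] (M : ℕ) (ρ : G →* Matrix (Fin M) (Fin M) ℂ),
      Continuous ρ → ∀ (p : ℕ), p.Prime → ∀ (c : ℝ) (s n : ℕ),
      UniformlyDiscrete (Family p c s n ρ)) ∧
    (∀ (k : Type) [Field k] [NumberField k] (p : ℕ), p.Prime → ∀ c : ℝ, 0 < c →
      (∀ P ∈ (Ideal.span {(p : ℤ)}).primesOver (𝓞 k),
        Real.log (2 * finrank ℚ k) / c ≤ (P.ramificationIdx ℤ : ℝ)) → HighlyRamified p c k) := by
  have aux : ∀ {G : Type u} [Group G] {M : ℕ} {ρ : G →* Matrix (Fin M) (Fin M) ℂ}
      {Γ : Subgroup G} {k : Type} [Field k] [NumberField k] {n : ℕ} {S : Finset (k →+* ℂ)}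
      (R : Realization ρ Γ k n S) (_ : TorsionFree Γ)
      (γ : Γ), γ ≠ 1 → ∀ N : ℕ, 0 < N → ¬ IsNilpotent (R.r γ ^ N - 1) := by
    intro G _ M ρ Γ k _ _ n S R htf γ hγ N hN h0
    rw [← map_pow] at h0
    have h1 := R.unipotent _ h0
    have h2 : (γ : G) ^ N = 1 := congrArg Subtype.val h1
    exact hγ (Subtype.ext (htf _ γ.2 N hN h2))
  have pw : ∀ (μ : ℝ) (N : ℕ) (l : ℂ), 0 < μ → 1 < ‖l‖ → Real.log μ ≤ (N : ℝ) * Real.log ‖l‖ →
      μ ≤ ‖l‖ ^ N := by
    intro μ N l hμ hl h
    rw [← Real.log_pow] at h
    exact (Real.log_le_log_iff hμ (pow_pos (by linarith) N)).mp h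
  refine ⟨?_, ?_, ?_⟩
  · intro G _ M ρ Γ k _ _ n s S R htf hs
    refine ⟨fun μ hμ hL γ hγ => ?_, fun p c hp hc γ hγ => ?_⟩
    · obtain ⟨σ, hσ, l, hl, hl1, hlow⟩ := Pool.Agent.Y399.MG.gap_transfer k n s S (R.r γ) hs
        (Real.log μ) (fun L _ _ _ M β h1 h2 h3 h4 h5 =>
          Real.log_le_log (by linarith) (hL L M (β : M) h1 h2 β.isIntegral_coe
            (fun h => h3 (RingOfIntegers.coe_eq_zero_iff.mp h))
            (fun m hm h => h4 m hm (RingOfIntegers.ext (by simpa using h))) h5))
        ((Group.isUnit γ).map R.r) (fun σ hσ l hl => R.comp' _ σ hσ l hl) (aux R htf γ hγ)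
      have hl' : IsEig (conjMat σ (R.r γ)) l := hl
      exact ⟨σ, hσ, l, hl', R.eig σ hσ γ l hl', hl1, pw μ (s * n) l (by linarith) hl1 hlow⟩
    · haveI : Fact p.Prime := ⟨hp⟩
      obtain ⟨σ, hσ, l, hl, hl1, hlow⟩ := Pool.Agent.Y399.MG.gap_ram k n s S (R.r γ) hs p c hc
        ((Group.isUnit γ).map R.r) (fun σ hσ l hl => R.comp' _ σ hσ l hl) (aux R htf γ hγ)
      have hl' : IsEig (conjMat σ (R.r γ)) l := hl
      refine ⟨σ, hσ, l, hl', R.eig σ hσ γ l hl', hl1, pw _ (s * n) l (Real.exp_pos _) hl1 ?_⟩
      rw [Real.log_exp]
      exact hlow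
  · intro G _ _ M ρ hρ p hp c s n
    haveI : Fact p.Prime := ⟨hp⟩
    obtain ⟨ε, hε, h⟩ := Pool.Agent.Y399.MG.gap_ram2 p c s n
    refine ⟨_, nhd ρ hρ ε hε, ?_⟩
    rintro Γ ⟨htf, k, _, _, S, R, hs, hc⟩ g v hv hΓ
    refine final_step' R htf ε hε g v hv hΓ fun hnil => ?_
    have hunit : IsUnit (R.r ⟨g * v * g⁻¹, hΓ⟩) :=
      (Group.isUnit (⟨g * v * g⁻¹, hΓ⟩ : Γ)).map R.r
    exact h k S _ hs hc hunit (fun σ hσ l hl => R.comp' _ σ hσ l hl) hnil
  · intro k _ _ p hp c hc he
    haveI : Fact p.Prime := ⟨hp⟩
    have h1 := Pool.Agent.TH53.HR.resDegSum_le p he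
    rw [div_mul_eq_mul_div, div_le_iff₀ hc] at h1
    unfold HighlyRamified
    unfold Pool.Agent.TH53.HR.resDegSum at h1
    linarith

end Pool.Agent.Results.MP_162bbe_gt.RamifiedFields
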